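import Mathlib

/-!
Two monotone families of subsets of a finite set with the same cardinalities are equivalent under
permutations.
-/

set_option autoImplicit false

namespace Pool.Agent.T9h36.NK

open Finset

/-- the number of the members which do not contain `x` -/
def lv {m d : ℕ} (I : Fin d → Finset (Fin m)) (x : Fin m) : ℕ :=
  (univ.filter fun i => x ∉ I i).card

theorem mem_iff {m d : ℕ} {I : Fin d → Finset (Fin m)} (hI : Monotone I) (i : Fin d) (x : Fin m) :
    x ∈ I i ↔ lv I x ≤ i := by
  constructor
  · intro hx
    have h1 : (univ.filter fun j => x ∉ I j) ⊆ Finset.Iio i := by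
      intro j hj
      rw [mem_filter] at hj
      rw [mem_Iio]
      by_contra hcon
      exact hj.2 (hI (not_lt.1 hcon) hx)
    have h2 := card_le_card h1
    rw [Fin.card_Iio] at h2
    exact h2
  · intro hx
    by_contra hcon
    have h1 : Finset.Iic i ⊆ (univ.filter fun j => x ∉ I j) := by
      intro j hj
      rw [mem_filter]
      exact ⟨mem_univ _, fun h => hcon (hI (mem_Iic.1 hj) h)⟩
    have h2 := card_le_card h1
    rw [Fin.card_Iic] at h2
    unfold lv at hx
    omega

theorem lv_le {m d : ℕ} (I : Fin d → Finset (Fin m)) (x : Fin m) : lv I x ≤ d := by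
  refine (card_filter_le _ _).trans ?_
  simp

theorem chain_perm {m d : ℕ} (I J : Fin d → Finset (Fin m)) (hI : Monotone I) (hJ : Monotone J)
    (h : ∀ i, (I i).card = (J i).card) : ∃ τ : Equiv.Perm (Fin m), ∀ i, (I i).image τ = J i := by
  have hle : ∀ c : ℕ, (univ.filter fun x => lv I x ≤ c).card =
      (univ.filter fun x => lv J x ≤ c).card := by
    intro c
    by_cases hc : c < d
    · have h1 : (univ.filter fun x => lv I x ≤ c) = I ⟨c, hc⟩ := by
        ext x
        rw [mem_iff hI]
        simp
      have h2 : (univ.filter fun x => lv J x ≤ c) = J ⟨c, hc⟩ := by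
        ext x
        rw [mem_iff hJ]
        simp
      rw [h1, h2, h]
    · have h1 : (univ.filter fun x => lv I x ≤ c) = univ := by
        rw [filter_eq_self]
        intro x _
        exact (lv_le I x).trans (by omega)
      have h2 : (univ.filter fun x => lv J x ≤ c) = univ := by
        rw [filter_eq_self]
        intro x _
        exact (lv_le J x).trans (by omega)
      rw [h1, h2]
  have hs : ∀ (L : Fin d → Finset (Fin m)) (c : ℕ), (univ.filter fun x => lv L x ≤ c + 1).card =
      (univ.filter fun x => lv L x ≤ c).card + (univ.filter fun x => lv L x = c + 1).card := by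
    intro L c
    rw [← card_union_of_disjoint]
    · congr 1
      ext x
      simp only [mem_filter, mem_union, mem_univ, true_and]
      omega
    · rw [disjoint_left]
      intro x hx hx'
      simp only [mem_filter, mem_univ, true_and] at hx hx'
      omega
  have heq : ∀ c : ℕ, (univ.filter fun x => lv I x = c).card =
      (univ.filter fun x => lv J x = c).card := by
    intro c
    rcases c with _ | c
    · have := hle 0
      simpa using this
    · have h1 := hs I c
      have h2 := hs J c
      rw [hle (c + 1), hle c] at h1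
      omega
  have e : ∀ c : ℕ, {x // lv I x = c} ≃ {x // lv J x = c} := fun c =>
    Fintype.equivOfCardEq (by rw [Fintype.card_subtype, Fintype.card_subtype]; exact heq c)
  have hmap : ∀ x, lv J (Equiv.ofFiberEquiv e x) = lv I x := fun x => Equiv.ofFiberEquiv_map e x
  refine ⟨Equiv.ofFiberEquiv e, fun i => ?_⟩
  ext y
  rw [mem_image, mem_iff hJ]
  constructor
  · rintro ⟨x, hx, rfl⟩
    rw [hmap]
    exact (mem_iff hI i x).1 hx
  · intro hy
    refine ⟨(Equiv.ofFiberEquiv e).symm y, ?_, Equiv.apply_symm_apply _ _⟩
    rw [mem_iff hI, ← hmap, Equiv.apply_symm_apply]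
    exact hy

theorem chain_perm_anti {m d : ℕ} (I J : Fin d → Finset (Fin m)) (hI : Antitone I)
    (hJ : Antitone J) (h : ∀ i, (I i).card = (J i).card) :
    ∃ τ : Equiv.Perm (Fin m), ∀ i, (I i).image τ = J i := by
  obtain ⟨τ, hτ⟩ := chain_perm (fun i => I i.rev) (fun i => J i.rev)
    (fun i j hij => hI (Fin.rev_le_rev.2 hij)) (fun i j hij => hJ (Fin.rev_le_rev.2 hij))
    (fun i => h _)
  refine ⟨τ, fun i => ?_⟩
  have := hτ i.rev
  simpa using this

end Pool.Agent.T9h36.NK
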