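import Pool.Agent.T9h44.NK.SpecC
import Pool.Agent.T9h36.NK.Perm0

set_option autoImplicit false

namespace Pool.Agent.T9h36.NK

open Pool.Agent.T9h44.NK

theorem perm : S_PERM := fun m d I J hI hJ h1 h2 =>
  chain_perm I J hI hJ (fun i => (h1 i).trans (h2 i).symm)

theorem permc : S_PERMC := fun m d I J _ hI hJ h1 h2 =>
  chain_perm_anti I J hI hJ (fun i => (h1 i).trans (h2 i).symm)

end Pool.Agent.T9h36.NK
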