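import Pool.Agent.T9h98.NK.SpecS

set_option autoImplicit false

open Set
open scoped RealInnerProductSpace

namespace Pool.Agent.T9h36.NK

open Pool.Agent.T9h98.DC Pool.Agent.T9h44.NK Pool.Agent.T9h98.NK

theorem rel : S_EDGE → S_REL := by
  intro hE D P g e hg hP hU v w y hc
  obtain ⟨he, hg1, hlen, hcor⟩ := hU
  obtain ⟨z, hz, ⟨α, β, hα, hβ, hzv⟩, _⟩ := hE D P hP v w y hc
  have h1 := hlen v w hc.1
  have h2 := hlen v y hc.2.1
  have h3 := hcor v w y hc
  have h4 := hlen w z hz.2.1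
  have h5 := hcor w v z hz
  obtain ⟨p, hp⟩ : ∃ p, p = w - v := ⟨_, rfl⟩
  obtain ⟨q, hq⟩ : ∃ q, q = y - v := ⟨_, rfl⟩
  have hzw : z - w = (α - 1) • p + β • q := by
    have : z - w = (z - v) - (w - v) := by abel
    rw [this, hzv, ← hp, ← hq, sub_smul, one_smul]
    abel
  have hvw : v - w = -p := by rw [hp]; abel
  rw [← hp] at h1
  rw [← hq] at h2
  rw [← hp, ← hq] at h3
  rw [hzw, hvw] at h5
  rw [hzw] at h4
  have hpp : ⟪p, p⟫ = e ^ 2 := by rw [real_inner_self_eq_norm_sq, h1]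
  have hqq : ⟪q, q⟫ = e ^ 2 := by rw [real_inner_self_eq_norm_sq, h2]
  have hqp : ⟪q, p⟫ = g * e ^ 2 := by rw [real_inner_comm, h3]
  have h6 : ⟪(α - 1) • p + β • q, (α - 1) • p + β • q⟫ = e ^ 2 := by
    rw [real_inner_self_eq_norm_sq, h4]
  simp only [inner_add_left, inner_add_right, inner_smul_left, inner_smul_right, inner_neg_left,
    hpp, hqq, hqp, h3, conj_trivial] at h5 h6
  have he2 : (0 : ℝ) < e ^ 2 := by positivity
  have h7 : (α - 1) = -g * (1 + β) := by
    have : ((α - 1) + g * (1 + β)) * e ^ 2 = 0 := by linarith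
    rcases mul_eq_zero.1 this with h | h
    · linarith
    · exact absurd h he2.ne'
  have h8 : (1 - β) * ((1 + β) * (1 - g ^ 2)) = 0 := by
    have : ((1 - β) * ((1 + β) * (1 - g ^ 2))) * e ^ 2 = 0 := by
      rw [h7] at h6
      linarith [h6]
    rcases mul_eq_zero.1 this with h | h
    · exact h
    · exact absurd h he2.ne'
  have h9 : β = 1 := by
    rcases mul_eq_zero.1 h8 with h | h
    · linarith
    · have h10 : 0 < (1 + β) * (1 - g ^ 2) := mul_pos (by linarith) (by nlinarith)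
      exact absurd h h10.ne'
  subst h9
  have h10 : α = 1 - 2 * g := by linarith
  have h11 : z = y + (1 - 2 * g) • (w - v) := by
    rw [← h10]
    have : z = v + (z - v) := by abel
    rw [this, hzv, one_smul]
    abel
  rw [← h11]
  exact ⟨hz, by linarith⟩

end Pool.Agent.T9h36.NK
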